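import Pool.Agent.V5helper51.MT.Stm

/-! Project MT (helper51), job PR: the measure of a slab. -/

set_option autoImplicit false

open Finset MeasureTheory

namespace Pool.Agent.V5helper72.MT

open Pool.Agent.V5helper51.MT

theorem cube_vol (n A : ℕ) :
    volume {β : Fin n → ℝ | ∀ i, |β i| ≤ (A : ℝ)} = ENNReal.ofReal ((2 * (A : ℝ)) ^ n) := by
  have h1 : {β : Fin n → ℝ | ∀ i, |β i| ≤ (A : ℝ)} = Set.pi Set.univ (fun _ : Fin n => Set.Icc (-(A : ℝ)) A) := by
    ext β
    simp only [Set.mem_setOf_eq, Set.mem_pi, Set.mem_univ, true_implies, Set.mem_Icc, abs_le]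
  rw [h1, volume_pi_pi]
  simp only [Real.volume_Icc, Finset.prod_const, Finset.card_univ, Fintype.card_fin]
  rw [← ENNReal.ofReal_pow (by have : (0 : ℝ) ≤ A := Nat.cast_nonneg A; linarith)]
  congr 1
  ring

theorem aux (n A : ℕ) (h : Fin (n + 1) → ℤ) (j : Fin (n + 1)) (hj : h j ≠ 0) (c t : ℝ) (ht : 0 ≤ t) :
    volume.real {α : Fin (n + 1) → ℝ | (∀ i, |α i| ≤ (A : ℝ)) ∧ |c + ∑ i, α i * (h i : ℝ)| ≤ t} ≤
      (2 * (A : ℝ)) ^ n * (2 * t / |(h j : ℝ)|) := by
  have hj' : (h j : ℝ) ≠ 0 := by exact_mod_cast hj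
  have hja : 0 < |(h j : ℝ)| := abs_pos.mpr hj'
  let S' : Set (ℝ × (Fin n → ℝ)) := {p | (|p.1| ≤ (A : ℝ) ∧ ∀ i, |p.2 i| ≤ (A : ℝ)) ∧
    |c + (p.1 * (h j : ℝ) + ∑ i, p.2 i * (h (j.succAbove i) : ℝ))| ≤ t}
  have hcl : IsClosed S' := by
    have h1 : IsClosed {p : ℝ × (Fin n → ℝ) | ∀ i, |p.2 i| ≤ (A : ℝ)} := by
      have : {p : ℝ × (Fin n → ℝ) | ∀ i, |p.2 i| ≤ (A : ℝ)} = ⋂ i, {p : ℝ × (Fin n → ℝ) | |p.2 i| ≤ (A : ℝ)} := by
        ext p; simp
      rw [this]
      exact isClosed_iInter fun i => isClosed_le (by fun_prop) continuous_const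
    have h2 : IsClosed {p : ℝ × (Fin n → ℝ) | |p.1| ≤ (A : ℝ)} := isClosed_le (by fun_prop) continuous_const
    have h3 : IsClosed {p : ℝ × (Fin n → ℝ) | |c + (p.1 * (h j : ℝ) + ∑ i, p.2 i * (h (j.succAbove i) : ℝ))| ≤ t} :=
      isClosed_le (by fun_prop) continuous_const
    exact (h2.inter h1).inter h3
  have hSm : MeasurableSet S' := hcl.measurableSet
  have hpre : {α : Fin (n + 1) → ℝ | (∀ i, |α i| ≤ (A : ℝ)) ∧ |c + ∑ i, α i * (h i : ℝ)| ≤ t} =
      (MeasurableEquiv.piFinSuccAbove (fun _ : Fin (n + 1) => ℝ) j) ⁻¹' S' := by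
    ext α
    show ((∀ i, |α i| ≤ (A : ℝ)) ∧ |c + ∑ i, α i * (h i : ℝ)| ≤ t) ↔
      ((|α j| ≤ (A : ℝ) ∧ ∀ i : Fin n, |α (j.succAbove i)| ≤ (A : ℝ)) ∧
        |c + (α j * (h j : ℝ) + ∑ i, α (j.succAbove i) * (h (j.succAbove i) : ℝ))| ≤ t)
    rw [Fin.sum_univ_succAbove _ j, Fin.forall_iff_succAbove j]
  have hvol : volume {α : Fin (n + 1) → ℝ | (∀ i, |α i| ≤ (A : ℝ)) ∧ |c + ∑ i, α i * (h i : ℝ)| ≤ t} =
      volume S' := by
    rw [hpre]
    exact (volume_preserving_piFinSuccAbove (fun _ : Fin (n + 1) => ℝ) j).measure_preimage hSm.nullMeasurableSet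
  have hcube : MeasurableSet {β : Fin n → ℝ | ∀ i, |β i| ≤ (A : ℝ)} := by
    have : {β : Fin n → ℝ | ∀ i, |β i| ≤ (A : ℝ)} = ⋂ i, {β : Fin n → ℝ | |β i| ≤ (A : ℝ)} := by
      ext p; simp
    rw [this]
    exact (isClosed_iInter fun i => isClosed_le (by fun_prop) continuous_const).measurableSet
  have hbound : volume S' ≤ ENNReal.ofReal ((2 * (A : ℝ)) ^ n * (2 * t / |(h j : ℝ)|)) := by
    rw [Measure.volume_eq_prod, Measure.prod_apply_symm hSm]
    calc ∫⁻ y : Fin n → ℝ, volume ((fun x : ℝ => (x, y)) ⁻¹' S')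
        ≤ ∫⁻ y : Fin n → ℝ, ({β : Fin n → ℝ | ∀ i, |β i| ≤ (A : ℝ)}).indicator
            (fun _ => ENNReal.ofReal (2 * t / |(h j : ℝ)|)) y := by
          refine lintegral_mono fun y => ?_
          by_cases hy : y ∈ {β : Fin n → ℝ | ∀ i, |β i| ≤ (A : ℝ)}
          · rw [Set.indicator_of_mem hy]
            have hsub : (fun x : ℝ => (x, y)) ⁻¹' S' ⊆
                Metric.closedBall (-((c + ∑ i, y i * (h (j.succAbove i) : ℝ)) / (h j : ℝ))) (t / |(h j : ℝ)|) := by
              intro x hx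
              have hx2 : |c + (x * (h j : ℝ) + ∑ i, y i * (h (j.succAbove i) : ℝ))| ≤ t := hx.2
              rw [Metric.mem_closedBall, Real.dist_eq, le_div_iff₀ hja, ← abs_mul]
              have e1 : (x - -((c + ∑ i, y i * (h (j.succAbove i) : ℝ)) / (h j : ℝ))) * (h j : ℝ) =
                  c + (x * (h j : ℝ) + ∑ i, y i * (h (j.succAbove i) : ℝ)) := by
                field_simp
                ring
              rw [e1]
              exact hx2
            refine (measure_mono hsub).trans ?_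
            rw [Real.volume_closedBall]
            apply le_of_eq
            congr 1
            ring
          · rw [Set.indicator_of_notMem hy]
            have : (fun x : ℝ => (x, y)) ⁻¹' S' = ∅ := by
              rw [Set.eq_empty_iff_forall_notMem]
              intro x hx
              exact hy hx.1.2
            rw [this, measure_empty]
      _ = ENNReal.ofReal ((2 * (A : ℝ)) ^ n * (2 * t / |(h j : ℝ)|)) := by
          rw [lintegral_indicator_const hcube, cube_vol, mul_comm, ← ENNReal.ofReal_mul (by positivity)]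
  rw [measureReal_def, hvol]
  exact ENNReal.toReal_le_of_le_ofReal (by positivity) hbound

theorem t_PR : S_PR := by
  intro k A hk _ h j hj c t ht
  obtain ⟨n, rfl⟩ : ∃ n, k = n + 2 := ⟨k - 2, by omega⟩
  exact aux n A h j hj c t ht

end Pool.Agent.V5helper72.MT
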